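import Mathlib
import Pool.Agent.W732.Ud.Stm2
import Pool.Agent.Helper540.Holo

/-!
Supportable boundary points: from farthest points.
-/

set_option autoImplicit false

open Metric Set Filter Topology Complex
open scoped ContDiff

namespace Pool.Agent.W125.Ud

open Pool.Agent.W732.Cor (V mv tau)
open Pool.Agent.W732.Ud

/-- local inverse of a holomorphic map -/
theorem inv {m : ℕ} {O : Set (V m)} {Φ : V m → V m} {Φ' : V m ≃L[ℂ] V m} {p : V m}
    (hO : IsOpen O) (hp : p ∈ O) (hΦ : DifferentiableOn ℂ Φ O)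
    (hd : HasFDerivAt Φ (Φ' : V m →L[ℂ] V m) p) :
    ∃ (O1 T1 : Set (V m)) (Θ : V m → V m), IsOpen O1 ∧ IsOpen T1 ∧ p ∈ O1 ∧ Φ p ∈ T1 ∧
      MapsTo Φ O1 T1 ∧ (∀ z ∈ O1, Θ (Φ z) = z) ∧ (∀ x ∈ T1, Φ (Θ x) = x) ∧
      DifferentiableOn ℂ Θ T1 ∧ ContDiffAt ℂ 2 Θ (Φ p) ∧
      HasFDerivAt Θ (Φ'.symm : V m →L[ℂ] V m) (Φ p) := by
  have hc : ContDiffAt ℂ 2 Φ p :=
    (Pool.Agent.Helper540.contDiffOn_of_differentiableOn hO hΦ 2).contDiffAt (hO.mem_nhds hp)
  have h2 : (2 : WithTop ℕ∞) ≠ 0 := by norm_num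
  set E := hc.toOpenPartialHomeomorph Φ hd h2 with hE
  have hEc : ∀ z, E z = Φ z := fun z => by
    rw [hE, ContDiffAt.toOpenPartialHomeomorph_coe]
  have hps : p ∈ E.source := hc.mem_toOpenPartialHomeomorph_source hd h2
  have hpt : Φ p ∈ E.target := hc.image_mem_toOpenPartialHomeomorph_target hd h2
  have hinv : ContDiffAt ℂ 2 E.symm (Φ p) := hc.to_localInverse hd h2
  have hEp : E.symm (Φ p) = p := by
    have := E.left_inv hps
    rwa [hEc] at this
  obtain ⟨T0, hT0, hT0o, hpT0⟩ := _root_.eventually_nhds_iff.1 (hinv.eventually (by simp))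
  refine ⟨E.source ∩ E ⁻¹' (T0 ∩ (E.target ∩ E.symm ⁻¹' O)), T0 ∩ (E.target ∩ E.symm ⁻¹' O),
    E.symm, ?_, ?_, ?_, ?_, ?_, ?_, ?_, ?_, hinv, ?_⟩
  · exact E.isOpen_inter_preimage (hT0o.inter (E.isOpen_inter_preimage_symm hO))
  · exact hT0o.inter (E.isOpen_inter_preimage_symm hO)
  · refine ⟨hps, ?_⟩
    rw [mem_preimage, hEc]
    refine ⟨hpT0, hpt, ?_⟩
    rw [mem_preimage, hEp]
    exact hp
  · refine ⟨hpT0, hpt, ?_⟩
    rw [mem_preimage, hEp]
    exact hp
  · intro z hz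
    have := hz.2
    rwa [mem_preimage, hEc] at this
  · intro z hz
    have := E.left_inv hz.1
    rwa [hEc] at this
  · intro x hx
    have := E.right_inv hx.2.1
    rwa [hEc] at this
  · intro x hx
    exact ((hT0 x hx.1).differentiableAt (by norm_num)).differentiableWithinAt
  · apply E.hasFDerivAt_symm hpt
    rw [hEp]
    exact hd

theorem main : S_geo → S_geoP := by
  intro hgeo m D p hD hpD hC2 hS
  obtain ⟨O, Φ, Φ', c, hO, hpO, hΦ, hd, hne, hball, hfar⟩ := hS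
  obtain ⟨ρ, hρc, hρd, hρD⟩ := hC2
  obtain ⟨O1, T1, Θ, hO1, hT1, hp1, hpt, hmap, hl, hr, hΘd, hΘc, hΘf⟩ :=
    inv hO hpO (hΦ.mono subset_union_right) hd
  obtain ⟨η, hη, hηD⟩ := hfar O1 (hO1.mem_nhds hp1)
  set R : ℝ := ‖Φ p - c‖ with hR
  have hRpos : 0 < R := norm_pos_iff.2 (sub_ne_zero.2 hne)
  have hΦD : DifferentiableOn ℂ Φ D := hΦ.mono subset_union_left
  have hΘp : Θ (Φ p) = p := hl p hp1
  have hΘcont : ContinuousAt Θ (Φ p) := hΘc.continuousAt
  -- the new domain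
  set Dt : Set (V m) := (T1 ∩ Θ ⁻¹' D) ∪ (ball c R ∩ {x | η / 2 < ‖x - Φ p‖}) with hDt
  have hDto : IsOpen Dt := by
    apply IsOpen.union
    · exact hΘd.continuousOn.isOpen_inter_preimage hT1 hD
    · apply isOpen_ball.inter
      exact isOpen_lt continuous_const (by fun_prop)
  have hDtb : Dt ⊆ ball c R := by
    rintro x (⟨hx1, hx2⟩ | ⟨hx1, -⟩)
    · have := hball hx2
      rwa [hr x hx1] at this
    · exact hx1
  have hΦDt : MapsTo Φ D Dt := by
    intro z hz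
    by_cases hz1 : z ∈ O1
    · left
      refine ⟨hmap hz1, ?_⟩
      rw [mem_preimage, hl z hz1]
      exact hz
    · right
      refine ⟨hball hz, ?_⟩
      have := hηD z hz hz1
      show η / 2 < ‖Φ z - Φ p‖
      linarith
  have hcl : Φ p ∈ closure Dt :=
    (hd.continuousAt.continuousWithinAt (s := D)).mem_closure hpD hΦDt
  have hnear : ∀ x ∈ T1 ∩ ball (Φ p) (η / 2), x ∈ Dt ↔ Θ x ∈ D := by
    rintro x ⟨hx1, hx2⟩
    constructor
    · rintro (h | h)
      · exact h.2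
      · exfalso
        have h2 := h.2
        change η / 2 < ‖x - Φ p‖ at h2
        rw [mem_ball_iff_norm] at hx2
        linarith
    · intro h
      exact Or.inl ⟨hx1, h⟩
  have hnb : T1 ∩ ball (Φ p) (η / 2) ∈ 𝓝 (Φ p) :=
    inter_mem (hT1.mem_nhds hpt) (ball_mem_nhds _ (by positivity))
  -- translation
  set e : V m := ((R : ℂ)⁻¹) • (Φ p - c) with he
  have hRC : (R : ℂ) ≠ 0 := by exact_mod_cast hRpos.ne'
  have hRe : (R : ℂ) • e = Φ p - c := by
    rw [he, smul_smul, mul_inv_cancel₀ hRC, one_smul]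
  have hen : ‖e‖ = 1 := by
    rw [he, norm_smul, norm_inv, ← hR, Complex.norm_real, Real.norm_of_nonneg hRpos.le]
    exact inv_mul_cancel₀ hRpos.ne'
  set D' : Set (V m) := (fun x => x + c) ⁻¹' Dt with hD'
  have hadd : Tendsto (fun x : V m => x + c) (𝓝 ((R : ℂ) • e)) (𝓝 (Φ p)) := by
    have h : ContinuousAt (fun x : V m => x + c) ((R : ℂ) • e) := by fun_prop
    have h1 := h.tendsto
    rw [hRe] at h1
    simpa [hRe] using h1
  have hD'o : IsOpen D' := hDto.preimage (by fun_prop)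
  have hD'b : D' ⊆ ball 0 R := by
    intro x hx
    have := hDtb hx
    rw [mem_ball_iff_norm] at this
    rw [mem_ball_zero_iff]
    simpa using this
  have hρ'c : ContDiffAt ℝ 2 (fun x => ρ (Θ (x + c))) ((R : ℂ) • e) := by
    have h1 : ContDiffAt ℝ 2 (fun x : V m => x + c) ((R : ℂ) • e) := by fun_prop
    have h2 : ContDiffAt ℝ 2 Θ ((R : ℂ) • e + c) := by
      rw [hRe, sub_add_cancel]
      exact hΘc.restrict_scalars ℝ
    have h3 : ContDiffAt ℝ 2 ρ (Θ ((R : ℂ) • e + c)) := by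
      rw [hRe, sub_add_cancel, hΘp]
      exact hρc
    have h4 : ContDiffAt ℝ 2 (fun x : V m => Θ (x + c)) ((R : ℂ) • e) :=
      ContDiffAt.comp (g := Θ) (f := fun x : V m => x + c) ((R : ℂ) • e) h2 h1
    exact ContDiffAt.comp (g := ρ) (f := fun x : V m => Θ (x + c)) ((R : ℂ) • e) h3 h4
  have hρ'd : fderiv ℝ (fun x => ρ (Θ (x + c))) ((R : ℂ) • e) ≠ 0 := by
    have h1 : HasFDerivAt (fun x : V m => x + c) (ContinuousLinearMap.id ℝ (V m))
        ((R : ℂ) • e) := (hasFDerivAt_id _).add_const c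
    have h2 : HasFDerivAt Θ ((Φ'.symm : V m →L[ℂ] V m).restrictScalars ℝ)
        ((R : ℂ) • e + c) := by
      rw [hRe, sub_add_cancel]
      exact hΘf.restrictScalars ℝ
    have h3 : HasFDerivAt ρ (fderiv ℝ ρ p) (Θ ((R : ℂ) • e + c)) := by
      rw [hRe, sub_add_cancel, hΘp]
      exact (hρc.differentiableAt (by norm_num)).hasFDerivAt
    have h4 : HasFDerivAt (fun x : V m => Θ (x + c)) _ ((R : ℂ) • e) :=
      HasFDerivAt.comp (g := Θ) (f := fun x : V m => x + c) ((R : ℂ) • e) h2 h1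
    have h5 : HasFDerivAt (fun x : V m => ρ (Θ (x + c))) _ ((R : ℂ) • e) :=
      HasFDerivAt.comp (g := ρ) (f := fun x : V m => Θ (x + c)) ((R : ℂ) • e) h3 h4
    rw [h5.fderiv]
    intro h0
    apply hρd
    ext v
    have h6 := congrArg (fun L : V m →L[ℝ] ℝ => L (Φ' v)) h0
    simpa using h6
  have hcl' : (R : ℂ) • e ∈ closure D' := by
    rw [hRe]
    have h1 : ContinuousWithinAt (fun x : V m => x - c) Dt (Φ p) := by fun_prop
    refine h1.mem_closure hcl ?_
    intro x hx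
    rw [hD', mem_preimage, sub_add_cancel]
    exact hx
  have hρ'D : ∀ᶠ z in 𝓝 ((R : ℂ) • e), z ∈ D' ↔ (fun x => ρ (Θ (x + c))) z < 0 := by
    have h1 : ∀ᶠ z in 𝓝 ((R : ℂ) • e), z + c ∈ T1 ∩ ball (Φ p) (η / 2) :=
      hadd.eventually (eventually_mem_set.2 hnb)
    have h2 : Tendsto (fun x : V m => Θ (x + c)) (𝓝 ((R : ℂ) • e)) (𝓝 p) := by
      have h3 := hΘcont.tendsto
      rw [hΘp] at h3
      exact h3.comp hadd
    filter_upwards [h1, h2.eventually hρD] with z hz1 hz2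
    rw [hD', mem_preimage, hnear _ hz1]
    exact hz2
  obtain ⟨U, ψ, G, P, hA, hloc⟩ := hgeo m e R D' (fun x => ρ (Θ (x + c))) hen hRpos hD'o hD'b
    hρ'c hρ'd hcl' hρ'D
  have hev : ∀ᶠ n in atTop, MapsTo (ψ n) (U n) ((fun x => x + c) ⁻¹' (T1 ∩ ball (Φ p) (η / 2))) :=
    hloc _ (hadd hnb)
  obtain ⟨n0, hn0⟩ := eventually_atTop.1 hev
  have hin : ∀ n, ∀ x ∈ U (n + n0), ψ (n + n0) x + c ∈ T1 ∩ ball (Φ p) (η / 2) := fun n x hx =>
    hn0 (n + n0) (Nat.le_add_left _ _) hx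
  have hsh : Tendsto (fun n => n + n0) atTop atTop := tendsto_add_atTop_nat n0
  have hΦψ : ∀ n, ∀ x ∈ U (n + n0), Φ (Θ (ψ (n + n0) x + c)) - c = ψ (n + n0) x := by
    intro n x hx
    rw [hr _ (hin n x hx).1, add_sub_cancel_right]
  have hΦc : DifferentiableOn ℂ (fun z => Φ z - c) D := hΦD.sub_const c
  have hΦm : MapsTo (fun z => Φ z - c) D D' := by
    intro z hz
    rw [hD', mem_preimage, sub_add_cancel]
    exact hΦDt hz
  refine ⟨fun n => U (n + n0), fun n x => Θ (ψ (n + n0) x + c), fun n z => G (n + n0) (Φ z - c),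
    fun z => P (Φ z - c), ?_, ?_⟩
  · refine ⟨hD, ⟨hA.exh.oH, fun n => hA.exh.oU _, fun n => hA.exh.sub _, ?_⟩, hA.cH, hA.nH, ?_, ?_,
      ?_, ?_, ?_, ?_, ?_, ?_⟩
    · intro K hK hKc
      exact hsh.eventually (hA.exh.exh K hK hKc)
    · intro n
      exact hΘd.comp ((hA.dψ (n + n0)).add_const c) (fun x hx => (hin n x hx).1)
    · intro n x hx
      have h1 := hin n x hx
      exact (hnear _ h1).1 (hA.mψ (n + n0) hx)
    · intro n
      exact (hA.dG (n + n0)).comp hΦc hΦm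
    · intro n z hz
      exact hA.mG (n + n0) (hΦm hz)
    · intro K hK hKc
      have h1 : TendstoUniformlyOn (fun n x => G (n + n0) (ψ (n + n0) x)) id atTop K := by
        intro u hu
        exact hsh.eventually (hA.lim K hK hKc u hu)
      refine h1.congr ?_
      filter_upwards [hsh.eventually (hA.exh.exh K hK hKc)] with n hn x hx
      show G (n + n0) (ψ (n + n0) x) = G (n + n0) (Φ (Θ (ψ (n + n0) x + c)) - c)
      rw [hΦψ n x (hn hx)]
    · exact hA.dP.comp hΦc hΦm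
    · intro z hz
      exact hA.mP _ (hΦm hz)
    · intro x hx
      have h1 := (hA.limP x hx).comp hsh
      refine h1.congr' ?_
      filter_upwards [hsh.eventually (hA.exh.exh {x} (singleton_subset_iff.2 hx)
        isCompact_singleton)] with n hn
      show P (ψ (n + n0) x) = P (Φ (Θ (ψ (n + n0) x + c)) - c)
      rw [hΦψ n x (hn rfl)]
  · intro O' hO'
    have h2 : Tendsto (fun x : V m => Θ (x + c)) (𝓝 ((R : ℂ) • e)) (𝓝 p) := by
      have h3 := hΘcont.tendsto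
      rw [hΘp] at h3
      exact h3.comp hadd
    filter_upwards [hsh.eventually (hloc _ (h2 hO'))] with n hn x hx
    exact hn hx

end Pool.Agent.W125.Ud
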